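import Pool.Agent.H468R2.KA.P_F_perm
import Pool.Agent.H468R2.KA.P_F_vt
import Pool.Agent.H468R2.KA.P_F_top
import Pool.Agent.H468R2.MA.P_T_SC
import Pool.Agent.H468R2.MA.P_T_LOC
import Pool.Agent.H468R2.MA.P_T_LOC1
import Pool.Agent.H468R2.MA.P_T_C
import Pool.Agent.H468R2.MA.P_T_CH
import Pool.Agent.H468R2.MA.P_T_BF

set_option autoImplicit false

namespace Pool.Agent.V1170.TC

open Pool.Agent.H468R2 Pool.Agent.H468R2.KA

universe v

theorem t_erg : MA.T_ERG :=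
  MA.t_T_ERG (MA.t_T_C MA.t_T_SC (MA.t_T_LOC MA.t_T_SC (MA.t_T_LOC1 MA.t_T_SC))) MA.t_T_CH

theorem f_perm : F_perm.{v} := t_F_perm t_F_top (t_F_vt t_F_top) t_erg

end Pool.Agent.V1170.TC
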