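import Pool.Agent.V1170.TC.Lift

/-! # Rigidity of the conjugacies and generic pairs -/

set_option autoImplicit false

open Real Set Filter Topology
open scoped ContDiff Manifold

namespace Pool.Agent.V1170.TC

variable {k : ℕ} {M : Type*} [TopologicalSpace M] [ChartedSpace (E k) M]

theorem norm_pt_lt (x : ℕ → ℝ) (n : ℕ) : ‖(pt x n : E k)‖ < 4 := by
  have h1 := norm_sub_norm_le (pt x n : E k) (cen x n)
  rw [norm_pt_sub, norm_cen] at h1
  linarith [rho_le n, rr_le n]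

theorem ps_tendsto (c : CD k M) {p : M} (hp : p ∈ c.B) :
    Tendsto c.ps (𝓝 p) (𝓝 (c.ps p)) :=
  (c.ps_smooth.continuousOn.continuousAt (c.openS.mem_nhds hp.1))

theorem sm_tendsto (c : CD k M) {e : E k} (he : ‖e‖ < 4) :
    Tendsto c.sm (𝓝 e) (𝓝 (c.sm e)) :=
  (c.sm_smooth.continuousOn.continuousAt (Metric.isOpen_ball.mem_nhds (by simpa using he)))

theorem lift_pt (c : CD k M) {q : ℕ → ℕ} {n : ℕ} (hq : 2 ≤ q n) (x : ℕ → ℝ) :
    c.lift (FF (ang q) x) (c.sm (pt x n)) ≠ c.sm (pt x n) := by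
  intro h
  have h1 := norm_pt_lt (k := k) x n
  rw [c.lift_B _ (c.sm_B h1), c.ps_sm _ h1] at h
  have h2 := congrArg c.ps h
  rw [c.ps_sm _ h1, c.ps_sm _ ((FF_star (ang q) x).lt4 h1)] at h2
  exact FF_pt hq x h2

theorem lift_pt_per (c : CD k M) {q : ℕ → ℕ} {n : ℕ} (hq : 2 ≤ q n) (x : ℕ → ℝ) :
    ∀ᶠ p in 𝓝 (c.sm (pt x n)), (c.lift (FF (ang q) x))^[q n] p = p := by
  have h1 := norm_pt_lt (k := k) x n
  have hB := c.sm_B h1
  have h2 := ps_tendsto c hB
  rw [c.ps_sm _ h1] at h2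
  filter_upwards [h2.eventually (FF_pt_per hq x), c.isOpen_B.mem_nhds hB] with p hp hpB
  rw [c.lift_iter (FF_star (ang q) x), c.lift_B _ hpB, hp, c.sm_ps p hpB.1 hpB.2]

theorem lift_per (c : CD k M) {q : ℕ → ℕ} (hq : ∀ n, (q n).Prime) (hi : Function.Injective q)
    {x : ℕ → ℝ} {n : ℕ} {p : M} (h1 : c.lift (FF (ang q) x) p ≠ p)
    (h2 : ∀ᶠ p' in 𝓝 p, (c.lift (FF (ang q) x))^[q n] p' = p') :
    p ∈ c.B ∧ ‖c.ps p - cen x n‖ < rr n := by
  have hB : p ∈ c.B := by
    by_contra hc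
    exact h1 (c.lift_nB _ hc)
  refine ⟨hB, ?_⟩
  apply per_disc hq hi
  · intro h
    apply h1
    rw [c.lift_B _ hB, h, c.sm_ps p hB.1 hB.2]
  · have h3 := sm_tendsto c hB.2
    rw [c.sm_ps p hB.1 hB.2] at h3
    have h4 : ∀ᶠ e : E k in 𝓝 (c.ps p), ‖e‖ < 4 :=
      continuous_norm.continuousAt.eventually_lt_const hB.2
    filter_upwards [h3.eventually h2, h4] with e he he4
    have hst := CD.star_iter (FF_star (k := k) (ang q) x) (q n)
    rw [c.lift_iter (FF_star (ang q) x), c.lift_B _ (c.sm_B he4), c.ps_sm _ he4] at he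
    have h5 := congrArg c.ps he
    rwa [c.ps_sm _ he4, c.ps_sm _ (hst.lt4 he4)] at h5

theorem image_pt (c : CD k M) {q : ℕ → ℕ} (hq : ∀ n, (q n).Prime) (hi : Function.Injective q)
    {x y : ℕ → ℝ} {h : M ≃ₜ M}
    (hh : ∀ p, h (c.lift (FF (ang q) x) p) = c.lift (FF (ang q) y) (h p)) (n : ℕ) :
    h (c.sm (pt x n)) ∈ c.B ∧ ‖c.ps (h (c.sm (pt x n))) - cen y n‖ < rr n := by
  have hit : ∀ (m : ℕ) (p : M), h ((c.lift (FF (ang q) x))^[m] p) =
      (c.lift (FF (ang q) y))^[m] (h p) := by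
    intro m p
    induction m with
    | zero => rfl
    | succ m ih => rw [Function.iterate_succ_apply', Function.iterate_succ_apply', hh, ih]
  apply lift_per c hq hi
  · rw [← hh]
    intro he
    exact lift_pt c (hq n).two_le x (h.injective he)
  · have h1 : Tendsto h.symm (𝓝 (h (c.sm (pt x n)))) (𝓝 (c.sm (pt x n))) := by
      have := h.symm.continuous.continuousAt (x := h (c.sm (pt x n)))
      unfold ContinuousAt at this
      rwa [h.symm_apply_apply] at this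
    filter_upwards [h1.eventually (lift_pt_per c (hq n).two_le x)] with p hp
    have h2 := hit (q n) (h.symm p)
    rw [hp, h.apply_symm_apply] at h2
    exact h2.symm

theorem pow_half_tendsto : Tendsto (fun n : ℕ => (1 / 2 : ℝ) ^ n) atTop (𝓝 0) :=
  tendsto_pow_atTop_nhds_zero_of_lt_one (by norm_num) (by norm_num)

theorem rr_tendsto : Tendsto rr atTop (𝓝 0) := by
  have := pow_half_tendsto.div_const 8
  rw [zero_div] at this
  exact this

theorem rho_tendsto : Tendsto rho atTop (𝓝 1) := by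
  have := (tendsto_const_nhds (x := (1 : ℝ))).add pow_half_tendsto
  rw [add_zero] at this
  exact this

theorem rot_inj {s : ℝ} {v w : E k} (h : rot s v = rot s w) : v = w := by
  have := congrArg (rot (-s)) h
  rwa [rot_rot, rot_rot, neg_add_cancel, rot_zero_angle, rot_zero_angle] at this

theorem limit_image [T2Space M] (c : CD k M) {q : ℕ → ℕ} (hq : ∀ n, (q n).Prime)
    (hi : Function.Injective q) {x y : ℕ → ℝ} {h : M ≃ₜ M}
    (hh : ∀ p, h (c.lift (FF (ang q) x) p) = c.lift (FF (ang q) y) (h p)) {s : ℝ}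
    (hf : ∃ᶠ n in atTop, x n ≤ 0 ∧ cl (y n) = s) : h (c.sm e0) = c.sm (rot s e0) := by
  set A : Set ℕ := {n | x n ≤ 0 ∧ cl (y n) = s} with hA
  set l : Filter ℕ := atTop ⊓ 𝓟 A with hl
  have hne : NeBot l := by
    rw [hl, inf_principal_neBot_iff]
    intro U hU
    obtain ⟨n, hn1, hn2⟩ := (hf.and_eventually hU).exists
    exact ⟨n, hn2, hn1⟩
  have hle : l ≤ atTop := inf_le_left
  have hAl : ∀ᶠ n in l, n ∈ A := mem_inf_of_right (mem_principal_self A)
  have hcx : Tendsto (fun n => (pt x n : E k)) l (𝓝 e0) := by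
    have h1 : Tendsto (fun n => (rho n • e0 + (rr n / 4) • e0 : E k)) l (𝓝 e0) := by
      have h2 := ((rho_tendsto.mono_left hle).smul_const (e0 : E k)).add
        (((rr_tendsto.mono_left hle).div_const 4).smul_const (e0 : E k))
      simpa using h2
    refine h1.congr' ?_
    filter_upwards [hAl] with n hn
    unfold pt cen
    rw [cl_zero hn.1, rot_zero_angle]
  have hcy : Tendsto (fun n => (cen y n : E k)) l (𝓝 (rot s e0)) := by
    have h1 : Tendsto (fun n => (rot s (rho n • e0) : E k)) l (𝓝 (rot s e0)) := by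
      have h2 := (rho_tendsto.mono_left hle).smul_const (e0 : E k)
      rw [one_smul] at h2
      have h3 : Continuous (fun v : E k => rot s v) :=
        rot_contDiff.continuous.comp (continuous_const.prodMk continuous_id)
      exact (h3.tendsto _).comp h2
    refine h1.congr' ?_
    filter_upwards [hAl] with n hn
    unfold cen
    rw [hn.2]
  have hps : Tendsto (fun n => c.ps (h (c.sm (pt x n)))) l (𝓝 (rot s e0)) := by
    have h1 : Tendsto (fun n => c.ps (h (c.sm (pt x n))) - cen y n) l (𝓝 0) := by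
      rw [tendsto_zero_iff_norm_tendsto_zero]
      refine squeeze_zero (fun n => norm_nonneg _)
        (fun n => (image_pt c hq hi hh n).2.le) (rr_tendsto.mono_left hle)
    have h2 := h1.add hcy
    simpa using h2
  have he0 : ‖(e0 : E k)‖ < 4 := by rw [norm_e0]; norm_num
  have hre0 : ‖(rot s e0 : E k)‖ < 4 := by rw [norm_rot]; exact he0
  have hL : Tendsto (fun n => h (c.sm (pt x n))) l (𝓝 (h (c.sm e0))) :=
    (h.continuous.tendsto _).comp ((sm_tendsto c he0).comp hcx)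
  have hR : Tendsto (fun n => h (c.sm (pt x n))) l (𝓝 (c.sm (rot s e0))) := by
    refine ((sm_tendsto c hre0).comp hps).congr ?_
    intro n
    have := (image_pt c hq hi hh n).1
    exact c.sm_ps _ this.1 this.2
  exact tendsto_nhds_unique hL hR

theorem not_conj [T2Space M] (c : CD k M) {q : ℕ → ℕ} (hq : ∀ n, (q n).Prime)
    (hi : Function.Injective q) {x y : ℕ → ℝ}
    (h0 : ∃ᶠ n in atTop, x n ≤ 0 ∧ cl (y n) = 0) (h1 : ∃ᶠ n in atTop, x n ≤ 0 ∧ cl (y n) = 1)
    (h : M ≃ₜ M) : ¬ ∀ p, h (c.lift (FF (ang q) x) p) = c.lift (FF (ang q) y) (h p) := by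
  intro hh
  have e1 := limit_image c hq hi hh h0
  have e2 := limit_image c hq hi hh h1
  rw [e1, rot_zero_angle] at e2
  have he0 : ‖(e0 : E k)‖ < 4 := by rw [norm_e0]; norm_num
  have e3 := congrArg c.ps e2
  rw [c.ps_sm _ he0, c.ps_sm _ (by rw [norm_rot]; exact he0)] at e3
  obtain ⟨m, hm⟩ := rot_eq_self e3.symm (Or.inl (by rw [e0_zero]; exact one_ne_zero))
  have hpi := Real.pi_gt_three
  have h2 : (0 : ℝ) < m := by nlinarith
  have h3 : (1 : ℤ) ≤ m := by exact_mod_cast h2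
  have h4 : (1 : ℝ) ≤ m := by exact_mod_cast h3
  nlinarith

/-! ### generic pairs -/

theorem gen_res (I : Set ℕ) (hI : ∃ᶠ n in atTop, n ∈ I) (U : Set ℝ) (hU : IsOpen U)
    (hne : U.Nonempty) :
    {y : ℕ → ℝ | ∃ᶠ n in atTop, n ∈ I ∧ y n ∈ U} ∈ residual (ℕ → ℝ) := by
  have h1 : {y : ℕ → ℝ | ∃ᶠ n in atTop, n ∈ I ∧ y n ∈ U} =
      ⋂ N : ℕ, ⋃ n : {n : ℕ // N ≤ n ∧ n ∈ I}, {y : ℕ → ℝ | y n ∈ U} := by
    ext y
    simp only [mem_ofPred_eq, mem_iInter, mem_iUnion, frequently_atTop]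
    constructor
    · intro h N
      obtain ⟨n, hn, hnI, hy⟩ := h N
      exact ⟨⟨n, hn, hnI⟩, hy⟩
    · intro h N
      obtain ⟨⟨n, hn, hnI⟩, hy⟩ := h N
      exact ⟨n, hn, hnI, hy⟩
  rw [h1, countable_iInter_mem]
  intro N
  apply residual_of_dense_open
  · exact isOpen_iUnion fun n => hU.preimage (continuous_apply _)
  · rw [dense_iff_inter_open]
    rintro V hV ⟨y0, hy0⟩
    obtain ⟨u, hu⟩ := hne
    have h2 : Tendsto (fun m => Function.update y0 m u) atTop (𝓝 y0) := by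
      rw [tendsto_pi_nhds]
      intro i
      refine tendsto_const_nhds.congr' ?_
      filter_upwards [eventually_gt_atTop i] with m hm
      rw [Function.update_of_ne hm.ne]
    obtain ⟨m, hmI, hmV, hmN⟩ := (hI.and_eventually
      ((h2.eventually (hV.mem_nhds hy0)).and (eventually_ge_atTop N))).exists
    refine ⟨Function.update y0 m u, hmV, mem_iUnion.2 ⟨⟨m, hmN, hmI⟩, ?_⟩⟩
    show Function.update y0 m u m ∈ U
    rw [Function.update_self]; exact hu

theorem gen_pair {C : Set (ℕ → ℝ)} (hC : C ∈ residual (ℕ → ℝ)) :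
    ∃ x ∈ C, ∃ y ∈ C, (∃ᶠ n in atTop, x n ≤ 0 ∧ cl (y n) = 0) ∧
      ∃ᶠ n in atTop, x n ≤ 0 ∧ cl (y n) = 1 := by
  have h1 := gen_res univ (Frequently.of_forall fun n => mem_univ n) (Iio 0) isOpen_Iio ⟨-1, by simp⟩
  obtain ⟨x, hxC, hx⟩ := (dense_of_mem_residual (inter_mem hC h1)).nonempty
  have hx' : ∃ᶠ n in atTop, n ∈ {n : ℕ | x n ≤ 0} := by
    refine Frequently.mono hx ?_
    rintro n ⟨-, hn⟩
    exact le_of_lt (mem_Iio.1 hn)
  have h2 := gen_res _ hx' (Iio 0) isOpen_Iio ⟨-1, by simp⟩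
  have h3 := gen_res _ hx' (Ioi 1) isOpen_Ioi ⟨2, by simp⟩
  obtain ⟨y, ⟨hyC, hy2⟩, hy3⟩ := (dense_of_mem_residual (inter_mem (inter_mem hC h2) h3)).nonempty
  refine ⟨x, hxC, y, hyC, ?_, ?_⟩
  · refine Frequently.mono hy2 ?_
    rintro n ⟨hn, hn'⟩
    exact ⟨hn, cl_zero (le_of_lt (mem_Iio.1 hn'))⟩
  · refine Frequently.mono hy3 ?_
    rintro n ⟨hn, hn'⟩
    exact ⟨hn, cl_one (le_of_lt (mem_Ioi.1 hn'))⟩

/-! ### choice of the primes -/

theorem exists_primes (N : ℕ → ℕ) :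
    ∃ q : ℕ → ℕ, (∀ n, (q n).Prime) ∧ Function.Injective q ∧ ∀ n, N n ≤ q n := by
  let q : ℕ → ℕ := fun n => Nat.rec (Nat.exists_infinite_primes (N 0)).choose
    (fun m r => (Nat.exists_infinite_primes (max (N (m + 1)) (r + 1))).choose) n
  have hs : ∀ m, q (m + 1) = (Nat.exists_infinite_primes (max (N (m + 1)) (q m + 1))).choose :=
    fun m => rfl
  have hsp : ∀ m, max (N (m + 1)) (q m + 1) ≤ q (m + 1) ∧ (q (m + 1)).Prime := by
    intro m
    rw [hs]
    exact (Nat.exists_infinite_primes (max (N (m + 1)) (q m + 1))).choose_spec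
  have h0 : N 0 ≤ q 0 ∧ (q 0).Prime := (Nat.exists_infinite_primes (N 0)).choose_spec
  refine ⟨q, ?_, ?_, ?_⟩
  · intro n
    cases n with
    | zero => exact h0.2
    | succ m => exact (hsp m).2
  · apply StrictMono.injective
    apply strictMono_nat_of_lt_succ
    intro m
    have := (le_max_right (N (m + 1)) (q m + 1)).trans (hsp m).1
    omega
  · intro n
    cases n with
    | zero => exact h0.1
    | succ m => exact (le_max_left _ _).trans (hsp m).1

theorem exists_q (k : ℕ) : ∃ q : ℕ → ℕ, (∀ n, (q n).Prime) ∧ Function.Injective q ∧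
    Sm k (ang q) ∧ Sm k (-ang q) := by
  have h : ∀ n : ℕ, ∃ δ : ℝ, 0 < δ ∧ ∀ a : ℝ, |a| < δ → ∀ j ≤ n, ∀ v : E k,
      ‖iteratedFDeriv ℝ j (G (rr n) a) v‖ ≤ (1 / 2) ^ n := fun n =>
    exists_delta (rr_pos n) n (by positivity)
  choose δ hδ0 hδ using h
  obtain ⟨q, hq1, hq2, hq3⟩ := exists_primes (fun n => ⌈2 * π / δ n⌉₊ + 1)
  have h1 : ∀ n, |ang q n| < δ n := by
    intro n
    have hq0 : (0 : ℝ) < q n := by exact_mod_cast (hq1 n).pos
    have h2 : (⌈2 * π / δ n⌉₊ : ℝ) + 1 ≤ q n := by exact_mod_cast hq3 n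
    have h3 := Nat.le_ceil (2 * π / δ n)
    have hpi := Real.pi_pos
    unfold ang
    rw [abs_of_pos (by positivity), div_lt_iff₀ hq0]
    have h4 : 2 * π / δ n < q n := by linarith
    rw [div_lt_iff₀ (hδ0 n)] at h4
    linarith
  refine ⟨q, hq1, hq2, ?_, ?_⟩
  · intro n j hj v
    exact hδ n _ (h1 n) j hj v
  · intro n j hj v
    refine hδ n _ ?_ j hj v
    rw [Pi.neg_apply, abs_neg]
    exact h1 n

end Pool.Agent.V1170.TC
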