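import Pool.Agent.V1170.TC.Rot

/-! # The family of diffeomorphisms of Euclidean space -/

set_option autoImplicit false

open Real Set Filter Topology
open scoped ContDiff

namespace Pool.Agent.V1170.TC

variable {k : ℕ}

/-- radii -/
noncomputable def rr (n : ℕ) : ℝ := (1 / 2) ^ n / 8
/-- distance of the `n`-th centre to the origin -/
noncomputable def rho (n : ℕ) : ℝ := 1 + (1 / 2) ^ n

theorem rr_pos (n : ℕ) : 0 < rr n := by unfold rr; positivity
theorem rr_le (n : ℕ) : rr n ≤ 1 / 8 := by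
  unfold rr
  have : (1 / 2 : ℝ) ^ n ≤ 1 := pow_le_one₀ (by norm_num) (by norm_num)
  linarith
theorem rho_pos (n : ℕ) : 0 < rho n := by unfold rho; positivity
theorem rho_le (n : ℕ) : rho n ≤ 2 := by
  unfold rho
  have : (1 / 2 : ℝ) ^ n ≤ 1 := pow_le_one₀ (by norm_num) (by norm_num)
  linarith

theorem rho_sep_lt {m n : ℕ} (h : m < n) : 2 * rr m + 2 * rr n ≤ rho m - rho n := by
  unfold rr rho
  have h1 : (1 / 2 : ℝ) ^ n ≤ (1 / 2) ^ (m + 1) :=
    pow_le_pow_of_le_one (by norm_num) (by norm_num) h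
  have h2 : (1 / 2 : ℝ) ^ (m + 1) = (1 / 2) ^ m / 2 := by ring
  have h3 : 0 < (1 / 2 : ℝ) ^ m := by positivity
  nlinarith

theorem shell_sep {t : ℝ} {m n : ℕ} (h : |t - rho n| < 2 * rr n) (hmn : m ≠ n) :
    2 * rr m ≤ |t - rho m| := by
  rw [abs_lt] at h
  rcases lt_or_gt_of_ne hmn with h1 | h1
  · have := rho_sep_lt h1
    rw [le_abs]; right; linarith
  · have := rho_sep_lt h1
    rw [le_abs]; left; linarith

/-- clamp to `[0,1]` -/
noncomputable def cl (t : ℝ) : ℝ := max 0 (min t 1)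

theorem cl_continuous : Continuous cl := by unfold cl; fun_prop

theorem cl_lip (s t : ℝ) : |cl s - cl t| ≤ |s - t| := by
  unfold cl
  refine (abs_max_sub_max_le_max 0 (min s 1) 0 (min t 1)).trans ?_
  rw [sub_self, abs_zero]
  refine max_le (abs_nonneg _) ?_
  refine (abs_min_sub_min_le_max s 1 t 1).trans ?_
  rw [sub_self, abs_zero]
  exact max_le le_rfl (abs_nonneg _)

theorem cl_zero {t : ℝ} (h : t ≤ 0) : cl t = 0 := by
  unfold cl; rw [min_eq_left (by linarith), max_eq_left h]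
theorem cl_one {t : ℝ} (h : 1 ≤ t) : cl t = 1 := by
  unfold cl; rw [min_eq_right h, max_eq_right zero_le_one]

/-- the centres -/
noncomputable def cen (x : ℕ → ℝ) (n : ℕ) : E k := rot (cl (x n)) (rho n • e0)

theorem norm_e0 : ‖(e0 : E k)‖ = 1 := by simp [e0]

theorem norm_cen (x : ℕ → ℝ) (n : ℕ) : ‖(cen x n : E k)‖ = rho n := by
  unfold cen
  rw [norm_rot, norm_smul, norm_e0, mul_one, Real.norm_eq_abs, abs_of_pos (rho_pos n)]

theorem cen_continuous (n : ℕ) : Continuous (fun x : ℕ → ℝ => (cen x n : E k)) := by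
  unfold cen
  exact rot_contDiff.continuous.comp
    ((cl_continuous.comp (continuous_apply n)).prodMk continuous_const)

theorem abs_norm_sub_rho (x : ℕ → ℝ) (n : ℕ) (p : E k) :
    |‖p‖ - rho n| ≤ ‖p - cen x n‖ := by
  rw [← norm_cen (k := k) x n]
  exact abs_norm_sub_norm_le p (cen x n)

theorem disc_sep {x : ℕ → ℝ} {m n : ℕ} {p : E k} (h : ‖p - cen x n‖ < rr n) (hmn : m ≠ n) :
    rr m ≤ ‖p - cen x m‖ := by
  have h1 : |‖p‖ - rho n| < 2 * rr n :=
    lt_of_le_of_lt (abs_norm_sub_rho x n p) (by linarith [rr_pos n])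
  have h2 := shell_sep h1 hmn
  have h3 := abs_norm_sub_rho x m p
  linarith [rr_pos m]

/-- the map which twists every disc -/
noncomputable def FF (a x : ℕ → ℝ) (p : E k) : E k := p + ∑' n, G (rr n) (a n) (p - cen x n)

theorem FF_in {a x : ℕ → ℝ} {n : ℕ} {p : E k} (h : ‖p - cen x n‖ < rr n) :
    FF a x p = cen x n + tw (rr n) (a n) (p - cen x n) := by
  unfold FF
  rw [tsum_eq_single n]
  · unfold G; abel
  · intro m hm
    exact G_out (rr_pos m) _ (disc_sep h hm)

theorem FF_out {a x : ℕ → ℝ} {p : E k} (h : ∀ n, rr n ≤ ‖p - cen x n‖) : FF a x p = p := by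
  unfold FF
  rw [tsum_congr (fun n => G_out (rr_pos n) (a n) (h n)), tsum_zero, add_zero]

theorem FF_FF (a b x : ℕ → ℝ) (p : E k) : FF a x (FF b x p) = FF (a + b) x p := by
  by_cases h : ∀ n, rr n ≤ ‖p - cen x n‖
  · rw [FF_out h, FF_out h, FF_out h]
  · push Not at h
    obtain ⟨n, hn⟩ := h
    rw [FF_in (a := b) hn, FF_in (a := a + b) hn]
    have h2 : ‖(cen x n + tw (rr n) (b n) (p - cen x n)) - cen x n‖ < rr n := by
      rw [add_sub_cancel_left, norm_tw]; exact hn
    rw [FF_in h2, add_sub_cancel_left, tw_tw]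
    rfl

theorem FF_zero (x : ℕ → ℝ) (p : E k) : FF 0 x p = p := by
  by_cases h : ∀ n, rr n ≤ ‖p - cen x n‖
  · rw [FF_out h]
  · push Not at h
    obtain ⟨n, hn⟩ := h
    rw [FF_in hn, Pi.zero_apply, tw_zero]
    abel

theorem FF_iter (a x : ℕ → ℝ) (m : ℕ) (p : E k) : (FF a x)^[m] p = FF (m • a) x p := by
  induction m with
  | zero => rw [Function.iterate_zero, id, zero_smul, FF_zero]
  | succ m ih => rw [Function.iterate_succ_apply', ih, FF_FF, succ_nsmul, add_comm]

theorem FF_big (a x : ℕ → ℝ) {p : E k} (h : 3 ≤ ‖p‖) : FF a x p = p := by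
  apply FF_out
  intro n
  have h1 := abs_norm_sub_rho x n p
  have h2 := le_abs_self (‖p‖ - rho n)
  linarith [rho_le n, rr_le n]

theorem FF_small (a x : ℕ → ℝ) {p : E k} (h : ‖p‖ < 3) : ‖FF a x p‖ < 3 := by
  by_cases h' : ∀ n, rr n ≤ ‖p - cen x n‖
  · rw [FF_out h']; exact h
  · push Not at h'
    obtain ⟨n, hn⟩ := h'
    rw [FF_in hn]
    refine lt_of_le_of_lt (norm_add_le _ _) ?_
    rw [norm_cen, norm_tw]
    linarith [rho_le n, rr_le n]

/-- the angles are small enough -/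
def Sm (k : ℕ) (a : ℕ → ℝ) : Prop :=
  ∀ n, ∀ j ≤ n, ∀ v : E k, ‖iteratedFDeriv ℝ j (G (rr n) (a n)) v‖ ≤ (1 / 2) ^ n

theorem FF_contDiff {a : ℕ → ℝ} (ha : Sm k a) (x : ℕ → ℝ) :
    ContDiff ℝ ∞ (FF a x : E k → E k) := by
  unfold FF
  refine contDiff_id.add ?_
  refine contDiff_tsum_of_eventually (N := ⊤) (v := fun _ n => (1 / 2 : ℝ) ^ n) ?_ ?_ ?_
  · intro n
    exact (G_contDiff _ _).comp (contDiff_id.sub contDiff_const)
  · intro j _
    exact summable_geometric_of_lt_one (by norm_num) (by norm_num)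
  · intro j _
    rw [Nat.cofinite_eq_atTop]
    filter_upwards [eventually_ge_atTop j] with n hn p
    have := iteratedFDeriv_comp_sub (𝕜 := ℝ) (f := (G (rr n) (a n) : E k → E k)) j (cen x n) p
    rw [this]
    exact ha n j hn _

theorem FF_joint {a : ℕ → ℝ} (ha : Sm k a) :
    Continuous (fun z : (ℕ → ℝ) × E k => FF a z.1 z.2) := by
  unfold FF
  refine continuous_snd.add ?_
  refine continuous_tsum (u := fun n => (1 / 2 : ℝ) ^ n) ?_
    (summable_geometric_of_lt_one (by norm_num) (by norm_num)) ?_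
  · intro n
    exact (G_contDiff (rr n) (a n)).continuous.comp
      (continuous_snd.sub ((cen_continuous n).comp continuous_fst))
  · intro n z
    have := ha n 0 (Nat.zero_le n) (z.2 - cen z.1 n)
    rwa [norm_iteratedFDeriv_zero] at this

/-! ### the conjugating homeomorphism -/

/-- a shell-wise rotation -/
noncomputable def hh (τ : ℝ → ℝ) (p : E k) : E k := rot (τ ‖p‖) p

theorem norm_hh (τ : ℝ → ℝ) (p : E k) : ‖hh τ p‖ = ‖p‖ := norm_rot _ _

theorem hh_hh (τ τ' : ℝ → ℝ) (p : E k) : hh τ (hh τ' p) = hh (τ + τ') p := by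
  have : hh τ (hh τ' p) = rot (τ ‖hh τ' p‖) (hh τ' p) := rfl
  rw [this, norm_hh]
  unfold hh
  rw [rot_rot]; rfl

theorem hh_zero (p : E k) : hh 0 p = p := rot_zero_angle p

theorem hh_continuous {τ : ℝ → ℝ} (h : Continuous τ) : Continuous (hh τ : E k → E k) :=
  rot_contDiff.continuous.comp ((h.comp continuous_norm).prodMk continuous_id)

/-- bump on the shell -/
noncomputable def kap (n : ℕ) (t : ℝ) : ℝ := max 0 (min 1 (2 - |t - rho n| / rr n))

theorem kap_continuous (n : ℕ) : Continuous (kap n) := by unfold kap; fun_prop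

theorem kap_one {n : ℕ} {t : ℝ} (h : |t - rho n| ≤ rr n) : kap n t = 1 := by
  unfold kap
  have : |t - rho n| / rr n ≤ 1 := (div_le_one (rr_pos n)).2 h
  rw [min_eq_left (by linarith), max_eq_right zero_le_one]

theorem kap_zero {n : ℕ} {t : ℝ} (h : 2 * rr n ≤ |t - rho n|) : kap n t = 0 := by
  unfold kap
  have : 2 ≤ |t - rho n| / rr n := (le_div_iff₀ (rr_pos n)).2 h
  rw [max_eq_left]
  exact (min_le_right _ _).trans (by linarith)

theorem kap_abs (n : ℕ) (t : ℝ) : |kap n t| ≤ 1 := by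
  unfold kap
  rw [abs_of_nonneg (le_max_left _ _)]
  exact max_le zero_le_one (min_le_left _ _)

noncomputable def tau (x y : ℕ → ℝ) (t : ℝ) : ℝ := ∑' n, (cl (y n) - cl (x n)) * kap n t

theorem tau_continuous {x y : ℕ → ℝ} (h : Summable fun n => |x n - y n|) :
    Continuous (tau x y) := by
  unfold tau
  refine continuous_tsum (u := fun n => |x n - y n|) (fun n => ?_) h ?_
  · exact continuous_const.mul (kap_continuous n)
  · intro n t
    rw [Real.norm_eq_abs, abs_mul]
    have h1 := cl_lip (y n) (x n)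
    rw [abs_sub_comm (y n)] at h1
    calc _ ≤ |x n - y n| * 1 := mul_le_mul h1 (kap_abs n t) (abs_nonneg _) (abs_nonneg _)
      _ = _ := mul_one _

theorem tau_in {x y : ℕ → ℝ} {n : ℕ} {t : ℝ} (h : |t - rho n| < rr n) :
    tau x y t = cl (y n) - cl (x n) := by
  unfold tau
  rw [tsum_eq_single n, kap_one h.le, mul_one]
  intro m hm
  rw [kap_zero (shell_sep (by linarith [rr_pos n]) hm), mul_zero]

theorem tau_big {x y : ℕ → ℝ} {t : ℝ} (h : 3 ≤ t) : tau x y t = 0 := by
  unfold tau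
  rw [tsum_congr (fun n => ?_), tsum_zero]
  rw [kap_zero, mul_zero]
  have h2 := le_abs_self (t - rho n)
  linarith [rho_le n, rr_le n]

theorem tau_neg (x y : ℕ → ℝ) : tau y x + tau x y = 0 := by
  funext t
  unfold tau
  rw [Pi.add_apply, Pi.zero_apply]
  by_cases h : ∀ n, 2 * rr n ≤ |t - rho n|
  · rw [tsum_congr (fun n => by rw [kap_zero (h n), mul_zero]), tsum_zero,
      tsum_congr (fun n => by rw [kap_zero (h n), mul_zero]), tsum_zero, add_zero]
  · push Not at h
    obtain ⟨n, hn⟩ := h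
    rw [tsum_eq_single n (fun m hm => by rw [kap_zero (shell_sep hn hm), mul_zero]),
      tsum_eq_single n (fun m hm => by rw [kap_zero (shell_sep hn hm), mul_zero])]
    ring

theorem hh_inv (x y : ℕ → ℝ) (p : E k) : hh (tau y x) (hh (tau x y) p) = p := by
  rw [hh_hh, tau_neg, hh_zero]

theorem hh_big {x y : ℕ → ℝ} {p : E k} (h : 3 ≤ ‖p‖) : hh (tau x y) p = p := by
  unfold hh; rw [tau_big h, rot_zero_angle]

theorem rot_cen {x y : ℕ → ℝ} (n : ℕ) :
    rot (cl (y n) - cl (x n)) (cen x n : E k) = cen y n := by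
  unfold cen
  rw [rot_rot]
  congr 1
  ring

theorem conj_FF (a x y : ℕ → ℝ) (p : E k) :
    hh (tau x y) (FF a x p) = FF a y (hh (tau x y) p) := by
  by_cases h : ∀ n, rr n ≤ ‖p - cen x n‖
  · rw [FF_out h, FF_out]
    intro n
    by_contra hc
    push Not at hc
    have h1 : |‖p‖ - rho n| < rr n := by
      have := abs_norm_sub_rho y n (hh (tau x y) p)
      rw [norm_hh] at this
      linarith
    have h2 : hh (tau x y) p - cen y n = rot (cl (y n) - cl (x n)) (p - cen x n) := by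
      rw [rot_sub, rot_cen]; unfold hh; rw [tau_in h1]
    rw [h2, norm_rot] at hc
    linarith [h n]
  · push Not at h
    obtain ⟨n, hn⟩ := h
    have h1 : |‖p‖ - rho n| < rr n := lt_of_le_of_lt (abs_norm_sub_rho x n p) hn
    have h2 : hh (tau x y) p = cen y n + rot (cl (y n) - cl (x n)) (p - cen x n) := by
      rw [rot_sub, rot_cen]; unfold hh; rw [tau_in h1]; abel
    have h3 : ‖hh (tau x y) p - cen y n‖ < rr n := by
      rw [h2, add_sub_cancel_left, norm_rot]; exact hn
    rw [FF_in h3, FF_in hn]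
    have h4 : ‖(cen x n + tw (rr n) (a n) (p - cen x n)) - cen x n‖ < rr n := by
      rw [add_sub_cancel_left, norm_tw]; exact hn
    have h5 : |‖cen x n + tw (rr n) (a n) (p - cen x n)‖ - rho n| < rr n :=
      lt_of_le_of_lt (abs_norm_sub_rho x n _) h4
    rw [h2, add_sub_cancel_left]
    unfold hh
    rw [tau_in h5, rot_add, rot_cen, rot_tw]

end Pool.Agent.V1170.TC
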