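import Pool.Agent.V1170.TC.Per

/-! # Extending maps of a chart by the identity -/

set_option autoImplicit false

open Real Set Filter Topology
open scoped ContDiff Manifold

namespace Pool.Agent.V1170.TC

variable {k : ℕ} {M : Type*} [TopologicalSpace M] [ChartedSpace (E k) M]

/-- a smooth parametrisation of an open set of `M` by the ball of radius `4` -/
structure CD (k : ℕ) (M : Type*) [TopologicalSpace M] [ChartedSpace (E k) M] where
  ps : M → E k
  sm : E k → M
  S : Set M
  openS : IsOpen S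
  sm_mem : ∀ e, ‖e‖ < 4 → sm e ∈ S
  ps_sm : ∀ e, ‖e‖ < 4 → ps (sm e) = e
  sm_ps : ∀ p ∈ S, ‖ps p‖ < 4 → sm (ps p) = p
  ps_smooth : ContMDiffOn 𝓘(ℝ, E k) 𝓘(ℝ, E k) ∞ ps S
  sm_smooth : ContMDiffOn 𝓘(ℝ, E k) 𝓘(ℝ, E k) ∞ sm (Metric.ball 0 4)

theorem exists_CD [IsManifold 𝓘(ℝ, E k) ∞ M] (m0 : M) : Nonempty (CD k M) := by
  set φ := chartAt (E k) m0 with hφ
  have h0 : φ m0 ∈ φ.target := mem_chart_target _ _
  obtain ⟨R, hR, hball⟩ := Metric.isOpen_iff.1 φ.open_target _ h0
  have hρ : 0 < R / 4 := by linarith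
  have hin : ∀ e : E k, ‖e‖ < 4 → φ m0 + (R / 4) • e ∈ φ.target := by
    intro e he
    apply hball
    rw [Metric.mem_ball, dist_eq_norm, add_sub_cancel_left, norm_smul, Real.norm_eq_abs,
      abs_of_pos hρ]
    nlinarith
  refine ⟨⟨fun p => (R / 4)⁻¹ • (φ p - φ m0), fun e => φ.symm (φ m0 + (R / 4) • e), φ.source,
    φ.open_source, ?_, ?_, ?_, ?_, ?_⟩⟩
  · intro e he
    exact φ.map_target (hin e he)
  · intro e he
    show (R / 4)⁻¹ • (φ (φ.symm (φ m0 + (R / 4) • e)) - φ m0) = e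
    rw [φ.right_inv (hin e he), add_sub_cancel_left, smul_smul, inv_mul_cancel₀ hρ.ne', one_smul]
  · intro p hp _
    show φ.symm (φ m0 + (R / 4) • ((R / 4)⁻¹ • (φ p - φ m0))) = p
    rw [smul_smul, mul_inv_cancel₀ hρ.ne', one_smul, add_sub_cancel]
    exact φ.left_inv hp
  · have h1 : ContMDiffOn 𝓘(ℝ, E k) 𝓘(ℝ, E k) ∞ φ φ.source := contMDiffOn_chart
    have h2 : ContDiff ℝ ∞ (fun e : E k => (R / 4)⁻¹ • (e - φ m0)) :=
      (contDiff_id.sub contDiff_const).const_smul _
    exact h2.contMDiff.comp_contMDiffOn h1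
  · have h1 : ContMDiffOn 𝓘(ℝ, E k) 𝓘(ℝ, E k) ∞ φ.symm φ.target := contMDiffOn_chart_symm
    have h2 : ContDiff ℝ ∞ (fun e : E k => φ m0 + (R / 4) • e) :=
      contDiff_const.add (contDiff_id.const_smul _)
    refine h1.comp h2.contMDiff.contMDiffOn ?_
    intro e he
    exact hin e (by simpa using he)

/-- maps of Euclidean space which preserve the ball of radius `3` and are the identity outside -/
def Star (F : E k → E k) : Prop := (∀ e, 3 ≤ ‖e‖ → F e = e) ∧ ∀ e, ‖e‖ < 3 → ‖F e‖ < 3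

theorem Star.lt4 {F : E k → E k} (h : Star F) {e : E k} (he : ‖e‖ < 4) : ‖F e‖ < 4 := by
  by_cases h3 : ‖e‖ < 3
  · linarith [h.2 e h3]
  · rw [h.1 e (not_lt.1 h3)]; exact he

theorem FF_star (a x : ℕ → ℝ) : Star (FF a x : E k → E k) :=
  ⟨fun _ h => FF_big a x h, fun _ h => FF_small a x h⟩

theorem hh_star (x y : ℕ → ℝ) : Star (hh (tau x y) : E k → E k) :=
  ⟨fun _ h => hh_big h, fun _ h => by rw [norm_hh]; exact h⟩

namespace CD

/-- the open set parametrised by the ball -/
def B (c : CD k M) : Set M := {p | p ∈ c.S ∧ ‖c.ps p‖ < 4}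

theorem isOpen_B (c : CD k M) : IsOpen c.B := by
  have h := c.ps_smooth.continuousOn.isOpen_inter_preimage c.openS
    (Metric.isOpen_ball (x := (0 : E k)) (ε := 4))
  convert h using 1
  ext p
  simp [B]

open Classical in
/-- extension by the identity -/
noncomputable def lift (c : CD k M) (F : E k → E k) (p : M) : M :=
  if p ∈ c.B then c.sm (F (c.ps p)) else p

theorem lift_B (c : CD k M) (F : E k → E k) {p : M} (h : p ∈ c.B) :
    c.lift F p = c.sm (F (c.ps p)) := by
  unfold lift; rw [if_pos h]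

theorem lift_nB (c : CD k M) (F : E k → E k) {p : M} (h : p ∉ c.B) : c.lift F p = p := by
  unfold lift; rw [if_neg h]

theorem sm_B (c : CD k M) {e : E k} (h : ‖e‖ < 4) : c.sm e ∈ c.B :=
  ⟨c.sm_mem e h, by rw [c.ps_sm e h]; exact h⟩

theorem lift_lift (c : CD k M) {F G' : E k → E k} (hG : Star G') (p : M) :
    c.lift F (c.lift G' p) = c.lift (F ∘ G') p := by
  by_cases h : p ∈ c.B
  · have h1 := hG.lt4 h.2
    rw [c.lift_B G' h, c.lift_B _ (c.sm_B h1), c.ps_sm _ h1, c.lift_B _ h]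
    rfl
  · rw [c.lift_nB _ h, c.lift_nB _ h, c.lift_nB _ h]

theorem lift_of_id (c : CD k M) {F : E k → E k} (h : ∀ e, F e = e) (p : M) :
    c.lift F p = p := by
  by_cases hp : p ∈ c.B
  · rw [c.lift_B _ hp, h, c.sm_ps p hp.1 hp.2]
  · exact c.lift_nB _ hp

theorem star_iter {F : E k → E k} (hF : Star F) (m : ℕ) : Star (F^[m]) := by
  induction m with
  | zero => exact ⟨fun _ _ => rfl, fun _ h => h⟩
  | succ m ih =>
    refine ⟨fun e he => ?_, fun e he => ?_⟩
    · rw [Function.iterate_succ_apply', ih.1 e he, hF.1 e he]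
    · rw [Function.iterate_succ_apply']; exact hF.2 _ (ih.2 e he)

theorem lift_iter (c : CD k M) {F : E k → E k} (hF : Star F) (m : ℕ) (p : M) :
    (c.lift F)^[m] p = c.lift (F^[m]) p := by
  induction m with
  | zero => exact (c.lift_of_id (F := id) (fun _ => rfl) p).symm
  | succ m ih =>
    rw [Function.iterate_succ_apply', ih, c.lift_lift (star_iter hF m)]
    congr 1
    funext e
    rw [Function.comp, Function.iterate_succ_apply']

/-- the compact core -/
def K (c : CD k M) : Set M := c.sm '' Metric.closedBall 0 3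

theorem K_sub (c : CD k M) : c.K ⊆ c.B := by
  rintro _ ⟨e, he, rfl⟩
  exact c.sm_B (by
    have : ‖e‖ ≤ 3 := by simpa using he
    linarith)

theorem isClosed_K [T2Space M] (c : CD k M) : IsClosed c.K := by
  apply IsCompact.isClosed
  apply (isCompact_closedBall (0 : E k) 3).image_of_continuousOn
  apply c.sm_smooth.continuousOn.mono
  exact Metric.closedBall_subset_ball (by norm_num)

theorem lift_nK (c : CD k M) {F : E k → E k} (hF : Star F) {p : M} (h : p ∉ c.K) :
    c.lift F p = p := by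
  by_cases hp : p ∈ c.B
  · rw [c.lift_B _ hp]
    have h3 : 3 ≤ ‖c.ps p‖ := by
      by_contra hc
      push Not at hc
      apply h
      exact ⟨c.ps p, by simpa using hc.le, c.sm_ps p hp.1 hp.2⟩
    rw [hF.1 _ h3, c.sm_ps p hp.1 hp.2]
  · exact c.lift_nB _ hp

theorem contMDiff_lift [T2Space M] (c : CD k M) {F : E k → E k} (hF : Star F)
    (hs : ContDiff ℝ ∞ F) : ContMDiff 𝓘(ℝ, E k) 𝓘(ℝ, E k) ∞ (c.lift F) := by
  intro p
  by_cases h : p ∈ c.B
  · have h1 : ContMDiffOn 𝓘(ℝ, E k) 𝓘(ℝ, E k) ∞ (fun p => c.sm (F (c.ps p))) c.B := by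
      have h2 : ContMDiffOn 𝓘(ℝ, E k) 𝓘(ℝ, E k) ∞ (fun p => F (c.ps p)) c.B :=
        hs.contMDiff.comp_contMDiffOn (c.ps_smooth.mono fun q hq => hq.1)
      refine c.sm_smooth.comp h2 ?_
      intro q hq
      simpa using hF.lt4 hq.2
    have h3 : ContMDiffOn 𝓘(ℝ, E k) 𝓘(ℝ, E k) ∞ (c.lift F) c.B :=
      h1.congr fun q hq => c.lift_B F hq
    exact h3.contMDiffAt (c.isOpen_B.mem_nhds h)
  · have h1 : p ∈ c.Kᶜ := fun hc => h (c.K_sub hc)
    have h2 : c.lift F =ᶠ[𝓝 p] fun q => q := by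
      filter_upwards [c.isClosed_K.isOpen_compl.mem_nhds h1] with q hq
      exact c.lift_nK hF hq
    exact contMDiffAt_id.congr_of_eventuallyEq h2

theorem continuous_lift [T2Space M] (c : CD k M) {X : Type*} [TopologicalSpace X]
    {F : X → E k → E k} (hF : ∀ x, Star (F x))
    (hc : Continuous fun z : X × E k => F z.1 z.2) :
    Continuous fun z : X × M => c.lift (F z.1) z.2 := by
  rw [continuous_iff_continuousAt]
  rintro ⟨x, p⟩
  by_cases h : p ∈ c.B
  · have h1 : ContinuousOn (fun z : X × M => c.sm (F z.1 (c.ps z.2))) (univ ×ˢ c.B) := by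
      have h2 : ContinuousOn (fun z : X × M => F z.1 (c.ps z.2)) (univ ×ˢ c.B) := by
        refine hc.comp_continuousOn (continuousOn_fst.prodMk ?_)
        exact (c.ps_smooth.continuousOn.mono fun q hq => hq.1).comp continuousOn_snd
          fun z hz => hz.2
      refine c.sm_smooth.continuousOn.comp h2 ?_
      intro z hz
      simpa using (hF z.1).lt4 hz.2.2
    have h3 : ContinuousOn (fun z : X × M => c.lift (F z.1) z.2) (univ ×ˢ c.B) :=
      h1.congr fun z hz => c.lift_B _ hz.2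
    exact h3.continuousAt ((isOpen_univ.prod c.isOpen_B).mem_nhds ⟨mem_univ _, h⟩)
  · have h1 : p ∈ c.Kᶜ := fun hc => h (c.K_sub hc)
    have h2 : (fun z : X × M => c.lift (F z.1) z.2) =ᶠ[𝓝 (x, p)] fun z => z.2 := by
      filter_upwards [(isOpen_univ.prod c.isClosed_K.isOpen_compl).mem_nhds
        ⟨mem_univ x, h1⟩] with z hz
      exact c.lift_nK (hF z.1) hz.2
    exact continuousAt_snd.congr h2.symm

theorem continuous_lift1 [T2Space M] (c : CD k M) {F : E k → E k} (hF : Star F)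
    (hc : Continuous F) : Continuous (c.lift F) := by
  have := c.continuous_lift (X := Unit) (F := fun _ => F) (fun _ => hF) (hc.comp continuous_snd)
  exact this.comp (continuous_const.prodMk continuous_id : Continuous fun p : M => ((), p))

end CD

/-- the diffeomorphism `f_x` -/
noncomputable def fD [T2Space M] (c : CD k M) {a : ℕ → ℝ} (ha : Sm k a) (ha' : Sm k (-a))
    (x : ℕ → ℝ) : M ≃ₘ^∞⟮𝓘(ℝ, E k), 𝓘(ℝ, E k)⟯ M where
  toFun := c.lift (FF a x)
  invFun := c.lift (FF (-a) x)
  left_inv p := by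
    rw [c.lift_lift (FF_star a x)]
    apply c.lift_of_id
    intro e
    rw [Function.comp, FF_FF, neg_add_cancel, FF_zero]
  right_inv p := by
    rw [c.lift_lift (FF_star (-a) x)]
    apply c.lift_of_id
    intro e
    rw [Function.comp, FF_FF, add_neg_cancel, FF_zero]
  contMDiff_toFun := c.contMDiff_lift (FF_star a x) (FF_contDiff ha x)
  contMDiff_invFun := c.contMDiff_lift (FF_star (-a) x) (FF_contDiff ha' x)

theorem fD_apply [T2Space M] (c : CD k M) {a : ℕ → ℝ} (ha : Sm k a) (ha' : Sm k (-a))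
    (x : ℕ → ℝ) (p : M) : fD c ha ha' x p = c.lift (FF a x) p := rfl

/-- the conjugating homeomorphism -/
noncomputable def hH [T2Space M] (c : CD k M) {x y : ℕ → ℝ}
    (h : Summable fun n => |x n - y n|) : M ≃ₜ M where
  toFun := c.lift (hh (tau x y))
  invFun := c.lift (hh (tau y x))
  left_inv p := by
    rw [c.lift_lift (hh_star x y)]
    exact c.lift_of_id (fun e => hh_inv x y e) p
  right_inv p := by
    rw [c.lift_lift (hh_star y x)]
    exact c.lift_of_id (fun e => hh_inv y x e) p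
  continuous_toFun := c.continuous_lift1 (hh_star x y) (hh_continuous (tau_continuous h))
  continuous_invFun := c.continuous_lift1 (hh_star y x) (hh_continuous (tau_continuous (by
    simpa only [abs_sub_comm] using h)))

theorem conj_of_summable [T2Space M] (c : CD k M) {a : ℕ → ℝ} (ha : Sm k a) (ha' : Sm k (-a))
    {x y : ℕ → ℝ} (h : Summable fun n => |x n - y n|) :
    ∃ g : M ≃ₜ M, ∀ p, g (fD c ha ha' x p) = fD c ha ha' y (g p) := by
  refine ⟨hH c h, fun p => ?_⟩
  show c.lift (hh (tau x y)) (c.lift (FF a x) p) = c.lift (FF a y) (c.lift (hh (tau x y)) p)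
  rw [c.lift_lift (FF_star a x), c.lift_lift (hh_star x y)]
  congr 1
  funext e
  exact conj_FF a x y e

end Pool.Agent.V1170.TC
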