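import Pool.Agent.V1170.TC.Fam

/-! # Periodic open sets -/

set_option autoImplicit false

open Real Set Filter Topology
open scoped ContDiff

namespace Pool.Agent.V1170.TC

variable {k : ℕ}

/-- the angles `2 π / q n` -/
noncomputable def ang (q : ℕ → ℕ) (n : ℕ) : ℝ := 2 * π / q n

/-- a point of the disc `n` which is moved -/
noncomputable def pt (x : ℕ → ℝ) (n : ℕ) : E k := cen x n + (rr n / 4) • e0

theorem pt_sub (x : ℕ → ℝ) (n : ℕ) : (pt x n : E k) - cen x n = (rr n / 4) • e0 := by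
  unfold pt; abel

theorem norm_pt_sub (x : ℕ → ℝ) (n : ℕ) : ‖(pt x n : E k) - cen x n‖ = rr n / 4 := by
  rw [pt_sub, norm_smul, norm_e0, mul_one, Real.norm_eq_abs, abs_of_pos (by linarith [rr_pos n])]

theorem chi_of_half {r : ℝ} (hr : 0 < r) {v : E k} (h : ‖v‖ < r / 2) :
    chi (‖v‖ ^ 2 / r ^ 2) = 1 := by
  apply chi_one
  rw [div_le_iff₀ (by positivity)]
  have h1 : ‖v‖ ^ 2 ≤ (r / 2) ^ 2 := pow_le_pow_left₀ (norm_nonneg _) h.le 2
  nlinarith

theorem FF_pt {q : ℕ → ℕ} {n : ℕ} (hq : 2 ≤ q n) (x : ℕ → ℝ) :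
    FF (ang q) x (pt x n : E k) ≠ pt x n := by
  intro h
  have h1 : ‖(pt x n : E k) - cen x n‖ < rr n := by
    rw [norm_pt_sub]; linarith [rr_pos n]
  rw [FF_in h1] at h
  have h2 : tw (rr n) (ang q n) ((pt x n : E k) - cen x n) = pt x n - cen x n := by
    rw [eq_sub_iff_add_eq, add_comm]; exact h
  unfold tw at h2
  rw [chi_of_half (rr_pos n) (by rw [norm_pt_sub]; linarith [rr_pos n]), mul_one] at h2
  have h3 : (((pt x n : E k) - cen x n : E k)) 0 ≠ 0 := by
    rw [pt_sub]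
    simp only [PiLp.smul_apply, smul_eq_mul, e0_zero, mul_one]
    have := rr_pos n
    positivity
  obtain ⟨m, hm⟩ := rot_eq_self h2 (Or.inl h3)
  unfold ang at hm
  have hq' : (2 : ℝ) ≤ q n := by exact_mod_cast hq
  have hq0 : (0 : ℝ) < q n := by linarith
  have h4 : (m : ℝ) * q n = 1 := by
    have hpi := Real.pi_pos
    field_simp at hm
    nlinarith
  have h5 : m * (q n : ℤ) = 1 := by exact_mod_cast h4
  have h6 : (q n : ℤ) ∣ 1 := ⟨m, by rw [← h5]; ring⟩
  have h7 : (q n : ℤ) ≤ 1 := Int.le_of_dvd one_pos h6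
  omega

theorem FF_pt_per {q : ℕ → ℕ} {n : ℕ} (hq : 2 ≤ q n) (x : ℕ → ℝ) :
    ∀ᶠ p in 𝓝 (pt x n : E k), (FF (ang q) x)^[q n] p = p := by
  have ho : IsOpen {p : E k | ‖p - cen x n‖ < rr n / 2} :=
    isOpen_lt (continuous_id.sub continuous_const).norm continuous_const
  have hm : (pt x n : E k) ∈ {p : E k | ‖p - cen x n‖ < rr n / 2} := by
    show ‖(pt x n : E k) - cen x n‖ < rr n / 2
    rw [norm_pt_sub]; linarith [rr_pos n]
  filter_upwards [ho.mem_nhds hm] with p hp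
  have hp' : ‖p - cen x n‖ < rr n / 2 := hp
  rw [FF_iter, FF_in (n := n) (by linarith [rr_pos n])]
  unfold tw
  rw [chi_of_half (rr_pos n) hp', mul_one]
  have h1 : (q n • ang q) n = ((1 : ℤ) : ℝ) * (2 * π) := by
    have hq0 : (q n : ℝ) ≠ 0 := by
      have : q n ≠ 0 := by omega
      exact_mod_cast this
    rw [Pi.smul_apply, nsmul_eq_mul]
    unfold ang
    field_simp
    norm_num
  rw [h1, rot_int]
  abel

theorem per_disc {q : ℕ → ℕ} (hq : ∀ n, (q n).Prime) (hi : Function.Injective q) {x : ℕ → ℝ}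
    {n : ℕ} {p : E k} (h1 : FF (ang q) x p ≠ p)
    (h2 : ∀ᶠ p' in 𝓝 p, (FF (ang q) x)^[q n] p' = p') : ‖p - cen x n‖ < rr n := by
  by_cases h : ∀ m, rr m ≤ ‖p - cen x m‖
  · exact absurd (FF_out h) h1
  push Not at h
  obtain ⟨m, hm⟩ := h
  by_cases hmn : m = n
  · rw [← hmn]; exact hm
  exfalso
  set v : E k := p - cen x m with hv
  set t0 : ℝ := ‖v‖ ^ 2 / rr m ^ 2 with ht0
  have hr := rr_pos m
  rw [FF_in hm] at h1
  have h3 : tw (rr m) (ang q m) v ≠ v := by
    intro h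
    apply h1
    rw [h, hv]; abel
  have hv0 : v 0 ≠ 0 ∨ v 1 ≠ 0 := by
    by_contra hc
    push Not at hc
    exact h3 (rot_of_zero hc.1 hc.2)
  have ht1 : t0 < 1 := by
    rw [ht0, div_lt_one (by positivity)]
    exact pow_lt_pow_left₀ hm (norm_nonneg _) two_ne_zero
  have hqm : (0 : ℝ) < q m := by exact_mod_cast (hq m).pos
  have hqn : (0 : ℝ) < q n := by exact_mod_cast (hq n).pos
  -- the integrality near `s = 1`
  have h4 : ∀ᶠ s : ℝ in 𝓝 1, ∃ M : ℤ, (q n : ℝ) * chi (s ^ 2 * t0) = M * q m := by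
    have hc : Continuous fun s : ℝ => cen x m + s • v :=
      continuous_const.add (continuous_id.smul continuous_const)
    have hc1 : cen x m + (1 : ℝ) • v = p := by rw [one_smul, hv]; abel
    have h5 : ∀ᶠ s : ℝ in 𝓝 1, (FF (ang q) x)^[q n] (cen x m + s • v) = cen x m + s • v := by
      have : Tendsto (fun s : ℝ => cen x m + s • v) (𝓝 1) (𝓝 (cen x m + (1 : ℝ) • v)) :=
        hc.continuousAt (x := (1 : ℝ))
      rw [hc1] at this
      exact this.eventually h2
    have h6 : ∀ᶠ s : ℝ in 𝓝 1, ‖s • v‖ < rr m := by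
      apply (continuous_id.smul continuous_const).norm.continuousAt.eventually_lt_const
      show ‖(1 : ℝ) • v‖ < rr m
      rw [one_smul]; exact hm
    have h7 : ∀ᶠ s : ℝ in 𝓝 1, s ≠ 0 := isOpen_ne.mem_nhds one_ne_zero
    filter_upwards [h5, h6, h7] with s hs1 hs2 hs3
    have h8 : ‖(cen x m + s • v) - cen x m‖ < rr m := by rw [add_sub_cancel_left]; exact hs2
    rw [FF_iter, FF_in h8, add_sub_cancel_left] at hs1
    have h9 : tw (rr m) ((q n • ang q) m) (s • v) = s • v := add_left_cancel hs1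
    have h10 : (s • v) 0 ≠ 0 ∨ (s • v) 1 ≠ 0 := by
      rcases hv0 with h | h
      · left; simp only [PiLp.smul_apply, smul_eq_mul]; exact mul_ne_zero hs3 h
      · right; simp only [PiLp.smul_apply, smul_eq_mul]; exact mul_ne_zero hs3 h
    obtain ⟨M, hM⟩ := rot_eq_self h9 h10
    refine ⟨M, ?_⟩
    have h11 : ‖s • v‖ ^ 2 / rr m ^ 2 = s ^ 2 * t0 := by
      rw [norm_smul, mul_pow, Real.norm_eq_abs, sq_abs, ht0]; ring
    rw [h11, Pi.smul_apply, nsmul_eq_mul] at hM
    unfold ang at hM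
    have hpi := Real.pi_pos
    field_simp at hM
    nlinarith
  have h12 : ∃ M : ℤ, (q n : ℝ) * chi t0 = M * q m := by
    have := h4.self_of_nhds
    simpa using this
  obtain ⟨M0, hM0⟩ := h12
  by_cases ht : t0 ≤ 1 / 2
  · rw [chi_one ht, mul_one] at hM0
    have h13 : (q n : ℤ) = M0 * (q m : ℤ) := by exact_mod_cast hM0
    have h14 : (q m : ℤ) ∣ (q n : ℤ) := ⟨M0, by rw [h13]; ring⟩
    have h15 : q m ∣ q n := by exact_mod_cast h14
    exact hmn (hi ((Nat.prime_dvd_prime_iff_eq (hq m) (hq n)).1 h15))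
  · push Not at ht
    have h16 : ∀ᶠ s : ℝ in 𝓝 1, (q n : ℝ) * chi t0 - q m < (q n : ℝ) * chi (s ^ 2 * t0) := by
      have hc : Continuous fun s : ℝ => (q n : ℝ) * chi (s ^ 2 * t0) :=
        continuous_const.mul (chi_continuous.comp ((continuous_pow 2).mul continuous_const))
      apply hc.continuousAt.eventually_const_lt
      simp only [one_pow, one_mul]
      linarith
    have h17 : ∀ᶠ s : ℝ in 𝓝 1, s ^ 2 * t0 < 1 := by
      have hc : Continuous fun s : ℝ => s ^ 2 * t0 := (continuous_pow 2).mul continuous_const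
      apply hc.continuousAt.eventually_lt_const
      simpa using ht1
    obtain ⟨s, ⟨⟨M, hM⟩, hs1, hs2⟩, hs3⟩ :=
      (((h4.and (h16.and h17)).filter_mono nhdsWithin_le_nhds).and
        (self_mem_nhdsWithin (a := (1 : ℝ)) (s := Ioi 1))).exists
    have hs3' : (1 : ℝ) < s := hs3
    have h18 : t0 < s ^ 2 * t0 := by
      have hs4 : 1 < s ^ 2 := by nlinarith
      nlinarith
    have h19 := chi_lt ht.le h18 hs2.le
    rw [hM, hM0] at hs1
    have h20 : (M : ℝ) * q m < M0 * q m := by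
      rw [← hM, ← hM0]
      exact mul_lt_mul_of_pos_left h19 hqn
    have h21 : (M : ℝ) < M0 := lt_of_mul_lt_mul_right h20 hqm.le
    have h22 : M + 1 ≤ M0 := by exact_mod_cast h21
    have h23 : (M : ℝ) + 1 ≤ M0 := by exact_mod_cast h22
    nlinarith

end Pool.Agent.V1170.TC
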