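import Mathlib

/-! # Rotations in the first two coordinates and local twists -/

set_option autoImplicit false

open Real Set Filter Topology
open scoped ContDiff

namespace Pool.Agent.V1170.TC

/-- Euclidean space of dimension `k + 2`. -/
abbrev E (k : ℕ) : Type := EuclideanSpace ℝ (Fin (k + 2))

variable {k : ℕ}

noncomputable def e0 : E k := EuclideanSpace.single 0 1
noncomputable def e1 : E k := EuclideanSpace.single 1 1

/-- rotation by `θ` in the first two coordinates -/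
noncomputable def rot (θ : ℝ) (v : E k) : E k :=
  v + ((cos θ - 1) * v 0 - sin θ * v 1) • e0 + (sin θ * v 0 + (cos θ - 1) * v 1) • e1

theorem e0_zero : (e0 : E k) 0 = 1 := by simp [e0]
theorem e0_one : (e0 : E k) 1 = 0 := by simp [e0]
theorem e1_zero : (e1 : E k) 0 = 0 := by simp [e1]
theorem e1_one : (e1 : E k) 1 = 1 := by simp [e1]
theorem e0_ne {i : Fin (k + 2)} (h : i ≠ 0) : (e0 : E k) i = 0 := by simp [e0, h]
theorem e1_ne {i : Fin (k + 2)} (h : i ≠ 1) : (e1 : E k) i = 0 := by simp [e1, h]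

theorem rot_zero (θ : ℝ) (v : E k) : rot θ v 0 = cos θ * v 0 - sin θ * v 1 := by
  simp only [rot, PiLp.add_apply, PiLp.smul_apply, smul_eq_mul, e0_zero, e1_zero]
  ring

theorem rot_one (θ : ℝ) (v : E k) : rot θ v 1 = sin θ * v 0 + cos θ * v 1 := by
  simp only [rot, PiLp.add_apply, PiLp.smul_apply, smul_eq_mul, e0_one, e1_one]
  ring

theorem rot_other (θ : ℝ) (v : E k) {i : Fin (k + 2)} (h0 : i ≠ 0) (h1 : i ≠ 1) :
    rot θ v i = v i := by
  simp only [rot, PiLp.add_apply, PiLp.smul_apply, smul_eq_mul, e0_ne h0, e1_ne h1]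
  ring

theorem ext3 {v w : E k} (h0 : v 0 = w 0) (h1 : v 1 = w 1)
    (h : ∀ i, i ≠ 0 → i ≠ 1 → v i = w i) : v = w := by
  ext i
  by_cases hi : i = 0
  · rw [hi]; exact h0
  · by_cases hi1 : i = 1
    · rw [hi1]; exact h1
    · exact h i hi hi1

theorem rot_rot (θ θ' : ℝ) (v : E k) : rot θ (rot θ' v) = rot (θ + θ') v := by
  apply ext3
  · rw [rot_zero, rot_zero, rot_one, rot_zero, cos_add, sin_add]; ring
  · rw [rot_one, rot_zero, rot_one, rot_one, cos_add, sin_add]; ring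
  · intro i h0 h1
    rw [rot_other _ _ h0 h1, rot_other _ _ h0 h1, rot_other _ _ h0 h1]

theorem rot_zero_angle (v : E k) : rot 0 v = v := by
  simp [rot]

theorem rot_add (θ : ℝ) (v w : E k) : rot θ (v + w) = rot θ v + rot θ w := by
  apply ext3
  · rw [PiLp.add_apply, rot_zero, rot_zero, rot_zero, PiLp.add_apply, PiLp.add_apply]; ring
  · rw [PiLp.add_apply, rot_one, rot_one, rot_one, PiLp.add_apply, PiLp.add_apply]; ring
  · intro i h0 h1
    rw [PiLp.add_apply, rot_other _ _ h0 h1, rot_other _ _ h0 h1, rot_other _ _ h0 h1,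
      PiLp.add_apply]

theorem rot_sub (θ : ℝ) (v w : E k) : rot θ (v - w) = rot θ v - rot θ w := by
  have := rot_add θ (v - w) w
  rw [sub_add_cancel] at this
  rw [this, add_sub_cancel_right]

theorem norm_sq_eq (v : E k) :
    ‖v‖ ^ 2 = v 0 ^ 2 + v 1 ^ 2 + ∑ i : Fin k, v (Fin.succ (Fin.succ i)) ^ 2 := by
  rw [EuclideanSpace.norm_sq_eq, Fin.sum_univ_succ, Fin.sum_univ_succ]
  simp only [Real.norm_eq_abs, sq_abs]
  have : (Fin.succ (0 : Fin (k + 1)) : Fin (k + 2)) = 1 := rfl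
  simp only [Fin.succ_zero_eq_one]
  ring

theorem norm_rot (θ : ℝ) (v : E k) : ‖rot θ v‖ = ‖v‖ := by
  have h : ‖rot θ v‖ ^ 2 = ‖v‖ ^ 2 := by
    rw [norm_sq_eq, norm_sq_eq, rot_zero, rot_one]
    have h2 : ∀ i : Fin k, rot θ v (Fin.succ (Fin.succ i)) = v (Fin.succ (Fin.succ i)) := by
      intro i
      apply rot_other
      · exact Fin.succ_ne_zero _
      · intro h
        have : Fin.succ i = 0 := Fin.succ_injective _ h
        exact Fin.succ_ne_zero _ this
    simp only [h2]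
    have hcs := sin_sq_add_cos_sq θ
    linear_combination (v 0 ^ 2 + v 1 ^ 2) * hcs
  exact (pow_left_inj₀ (norm_nonneg _) (norm_nonneg _) two_ne_zero).1 h

theorem coord_contDiff (i : Fin (k + 2)) : ContDiff ℝ ∞ (fun v : E k => v i) :=
  (EuclideanSpace.proj (𝕜 := ℝ) i).contDiff

theorem rot_contDiff : ContDiff ℝ ∞ (fun z : ℝ × E k => rot z.1 z.2) := by
  unfold rot
  have h0 : ContDiff ℝ ∞ (fun z : ℝ × E k => z.2 0) := (coord_contDiff 0).comp contDiff_snd
  have h1 : ContDiff ℝ ∞ (fun z : ℝ × E k => z.2 1) := (coord_contDiff 1).comp contDiff_snd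
  have hc : ContDiff ℝ ∞ (fun z : ℝ × E k => cos z.1) := contDiff_cos.comp contDiff_fst
  have hs : ContDiff ℝ ∞ (fun z : ℝ × E k => sin z.1) := contDiff_sin.comp contDiff_fst
  exact (contDiff_snd.add ((((hc.sub contDiff_const).mul h0).sub (hs.mul h1)).smul
    contDiff_const)).add (((hs.mul h0).add ((hc.sub contDiff_const).mul h1)).smul contDiff_const)

theorem rot_eq_self {θ : ℝ} {v : E k} (h : rot θ v = v) (hv : v 0 ≠ 0 ∨ v 1 ≠ 0) :
    ∃ m : ℤ, (m : ℝ) * (2 * π) = θ := by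
  have h0 : cos θ * v 0 - sin θ * v 1 = v 0 := by rw [← rot_zero, h]
  have h1 : sin θ * v 0 + cos θ * v 1 = v 1 := by rw [← rot_one, h]
  have h2 : (cos θ - 1) * (v 0 ^ 2 + v 1 ^ 2) = 0 := by
    linear_combination v 0 * h0 + v 1 * h1
  have h3 : v 0 ^ 2 + v 1 ^ 2 ≠ 0 := by
    rcases hv with hv | hv
    · have := sq_nonneg (v 1)
      have h' : 0 < v 0 ^ 2 := by positivity
      linarith
    · have := sq_nonneg (v 0)
      have h' : 0 < v 1 ^ 2 := by positivity
      linarith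
  have h4 : cos θ = 1 := by
    rcases mul_eq_zero.1 h2 with h | h
    · linarith
    · exact absurd h h3
  exact (Real.cos_eq_one_iff θ).1 h4

theorem rot_of_zero {θ : ℝ} {v : E k} (h0 : v 0 = 0) (h1 : v 1 = 0) : rot θ v = v := by
  simp [rot, h0, h1]

theorem rot_int (m : ℤ) (v : E k) : rot ((m : ℝ) * (2 * π)) v = v := by
  have h1 : cos ((m : ℝ) * (2 * π)) = 1 := (Real.cos_eq_one_iff _).2 ⟨m, rfl⟩
  have h2 : sin ((m : ℝ) * (2 * π)) = 0 := by
    rw [Real.sin_eq_zero_iff]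
    exact ⟨2 * m, by push_cast; ring⟩
  simp [rot, h1, h2]

/-! ### the cut-off -/

noncomputable def chi (t : ℝ) : ℝ := smoothTransition (2 - 2 * t)

theorem chi_contDiff : ContDiff ℝ ∞ chi :=
  Real.smoothTransition.contDiff.comp (contDiff_const.sub (contDiff_const.mul contDiff_id))

theorem chi_continuous : Continuous chi := chi_contDiff.continuous

theorem chi_nonneg (t : ℝ) : 0 ≤ chi t := smoothTransition.nonneg _
theorem chi_le_one (t : ℝ) : chi t ≤ 1 := smoothTransition.le_one _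

theorem chi_zero {t : ℝ} (h : 1 ≤ t) : chi t = 0 :=
  smoothTransition.zero_of_nonpos (by linarith)

theorem chi_one {t : ℝ} (h : t ≤ 1 / 2) : chi t = 1 :=
  smoothTransition.one_of_one_le (by linarith)

theorem st_lt {u v : ℝ} (h0 : 0 ≤ u) (h : u < v) (h1 : v ≤ 1) :
    smoothTransition u < smoothTransition v := by
  unfold smoothTransition
  have hg : ∀ {a b : ℝ}, 0 ≤ a → a < b → expNegInvGlue a < expNegInvGlue b := by
    intro a b ha hab
    have hb : 0 < b := lt_of_le_of_lt ha hab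
    rcases eq_or_lt_of_le ha with h | h
    · rw [← h, expNegInvGlue.zero]
      exact expNegInvGlue.pos_of_pos hb
    · unfold expNegInvGlue
      rw [if_neg (not_le.2 h), if_neg (not_le.2 hb)]
      apply Real.exp_lt_exp.2
      have := (inv_lt_inv₀ hb h).2 hab
      linarith
  have hu := expNegInvGlue.nonneg u
  have hv : 0 < expNegInvGlue v := expNegInvGlue.pos_of_pos (lt_of_le_of_lt h0 h)
  have h1u : 0 < expNegInvGlue (1 - u) := expNegInvGlue.pos_of_pos (by linarith)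
  have h1v := expNegInvGlue.nonneg (1 - v)
  have huv := hg h0 h
  have h1 : expNegInvGlue (1 - v) ≤ expNegInvGlue (1 - u) :=
    (hg (by linarith) (by linarith)).le
  rw [div_lt_div_iff₀ (by linarith) (by linarith)]
  nlinarith [mul_le_mul_of_nonneg_left h1 hu, mul_lt_mul_of_pos_right huv h1u]

theorem chi_lt {s t : ℝ} (h0 : 1 / 2 ≤ s) (h : s < t) (h1 : t ≤ 1) : chi t < chi s :=
  st_lt (by linarith) (by linarith) (by linarith)

/-! ### the twist -/

/-- the twist of radius `r` and angle `a` -/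
noncomputable def tw (r a : ℝ) (v : E k) : E k := rot (a * chi (‖v‖ ^ 2 / r ^ 2)) v

theorem norm_tw (r a : ℝ) (v : E k) : ‖tw r a v‖ = ‖v‖ := norm_rot _ _

theorem tw_tw (r a b : ℝ) (v : E k) : tw r a (tw r b v) = tw r (a + b) v := by
  have : tw r a (tw r b v) = rot (a * chi (‖tw r b v‖ ^ 2 / r ^ 2)) (tw r b v) := rfl
  rw [this, norm_tw]
  unfold tw
  rw [rot_rot, add_mul]

theorem tw_zero (r : ℝ) (v : E k) : tw r 0 v = v := by
  unfold tw; rw [zero_mul, rot_zero_angle]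

theorem tw_out {r : ℝ} (hr : 0 < r) (a : ℝ) {v : E k} (h : r ≤ ‖v‖) : tw r a v = v := by
  unfold tw
  rw [chi_zero, mul_zero, rot_zero_angle]
  rw [le_div_iff₀ (by positivity), one_mul]
  exact pow_le_pow_left₀ hr.le h 2

theorem rot_tw (r a Δ : ℝ) (v : E k) : rot Δ (tw r a v) = tw r a (rot Δ v) := by
  unfold tw
  rw [norm_rot, rot_rot, rot_rot, add_comm]

theorem tw_contDiff (r : ℝ) : ContDiff ℝ ∞ (fun z : ℝ × E k => tw r z.1 z.2) := by
  unfold tw
  have h : ContDiff ℝ ∞ (fun z : ℝ × E k => z.1 * chi (‖z.2‖ ^ 2 / r ^ 2)) :=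
    contDiff_fst.mul (chi_contDiff.comp
      ((((contDiff_norm_sq ℝ).comp contDiff_snd)).div_const _))
  exact rot_contDiff.comp (h.prodMk contDiff_snd)

/-- the displacement of the twist -/
noncomputable def G (r a : ℝ) (v : E k) : E k := tw r a v - v

theorem G_out {r : ℝ} (hr : 0 < r) (a : ℝ) {v : E k} (h : r ≤ ‖v‖) : G r a v = 0 := by
  unfold G; rw [tw_out hr a h, sub_self]

theorem G_contDiff2 (r : ℝ) : ContDiff ℝ ∞ (fun z : ℝ × E k => G r z.1 z.2) :=
  (tw_contDiff r).sub contDiff_snd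

theorem G_contDiff (r a : ℝ) : ContDiff ℝ ∞ (G r a : E k → E k) :=
  (G_contDiff2 r).comp (contDiff_prodMk_right a)

/-- smooth families which vanish at the parameter `0` and outside a ball have small derivatives -/
theorem small_aux (r : ℝ) (j : ℕ) : ∀ (F : Type) [NormedAddCommGroup F] [NormedSpace ℝ F]
    (Φ : ℝ → E k → F), ContDiff ℝ ∞ (Function.uncurry Φ) → (∀ v, Φ 0 v = 0) →
    (∀ a v, r < ‖v‖ → Φ a v = 0) → ∀ ε : ℝ, 0 < ε →
    ∀ᶠ a in 𝓝 (0 : ℝ), ∀ v, ‖iteratedFDeriv ℝ j (Φ a) v‖ ≤ ε := by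
  induction j with
  | zero =>
    intro F _ _ Φ hΦ h0 hr ε hε
    have hK : IsCompact (Metric.closedBall (0 : E k) r) := isCompact_closedBall _ _
    have h := hK.eventually_forall_of_forall_eventually (x₀ := (0 : ℝ))
      (P := fun a v => ‖Φ a v‖ ≤ ε) (by
        intro v _
        have hc : Continuous fun z : ℝ × E k => ‖Φ z.1 z.2‖ := hΦ.continuous.norm
        have h1 : ∀ᶠ z : ℝ × E k in 𝓝 ((0 : ℝ), v), ‖Φ z.1 z.2‖ < ε := by
          apply hc.continuousAt.eventually_lt_const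
          show ‖Φ 0 v‖ < ε
          rw [h0, norm_zero]; exact hε
        exact h1.mono fun z hz => hz.le)
    filter_upwards [h] with a ha v
    rw [norm_iteratedFDeriv_zero]
    by_cases hv : ‖v‖ ≤ r
    · exact ha v (by simpa using hv)
    · rw [hr a v (not_le.1 hv), norm_zero]; exact hε.le
  | succ j ih =>
    intro F _ _ Φ hΦ h0 hr ε hε
    have h1 : ContDiff ℝ ∞ (Function.uncurry fun (a : ℝ) (v : E k) => fderiv ℝ (Φ a) v) := by
      have h2 : ContDiff ℝ ∞ (Function.uncurry fun (z : ℝ × E k) (w : E k) => Φ z.1 w) :=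
        hΦ.comp ((contDiff_fst.comp contDiff_fst).prodMk contDiff_snd)
      exact ContDiff.fderiv (m := ∞) (n := ∞) h2 contDiff_snd (by simp)
    have h2 := ih (E k →L[ℝ] F) (fun a v => fderiv ℝ (Φ a) v) h1 (by
      intro v
      have : Φ 0 = fun _ => 0 := funext h0
      simp only [this]
      exact (hasFDerivAt_const (0 : F) v).fderiv) (by
      intro a v hv
      have : Φ a =ᶠ[𝓝 v] fun _ => 0 := by
        have ho : IsOpen {w : E k | r < ‖w‖} := isOpen_lt continuous_const continuous_norm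
        filter_upwards [ho.mem_nhds hv] with w hw
        exact hr a w hw
      rw [this.fderiv_eq]
      exact (hasFDerivAt_const (0 : F) v).fderiv) ε hε
    filter_upwards [h2] with a ha v
    rw [← norm_iteratedFDeriv_fderiv]
    exact ha v

theorem exists_delta {r : ℝ} (hr : 0 < r) (N : ℕ) {ε : ℝ} (hε : 0 < ε) :
    ∃ δ : ℝ, 0 < δ ∧ ∀ a : ℝ, |a| < δ → ∀ j ≤ N, ∀ v : E k,
      ‖iteratedFDeriv ℝ j (G r a) v‖ ≤ ε := by
  have h : ∀ j, ∀ᶠ a in 𝓝 (0 : ℝ), ∀ v : E k, ‖iteratedFDeriv ℝ j (G r a) v‖ ≤ ε := by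
    intro j
    refine small_aux r j (E k) (fun a v => G r a v) (G_contDiff2 r) ?_ ?_ ε hε
    · intro v; unfold G; rw [tw_zero, sub_self]
    · intro a v hv; exact G_out hr a hv.le
  have h2 : ∀ᶠ a in 𝓝 (0 : ℝ), ∀ j ∈ Finset.range (N + 1), ∀ v : E k,
      ‖iteratedFDeriv ℝ j (G r a) v‖ ≤ ε :=
    (Filter.eventually_all_finset _).2 fun j _ => h j
  obtain ⟨δ, hδ, h3⟩ := Metric.eventually_nhds_iff.1 h2
  refine ⟨δ, hδ, fun a ha j hj v => h3 (by simpa using ha) j ?_ v⟩
  exact Finset.mem_range.2 (by omega)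

end Pool.Agent.V1170.TC
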